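import Pool.Agent.Run7.h802.HP.Iface

/-! Project hp (helper802): general facts on forms (helper216). -/

set_option autoImplicit false

namespace Pool.Agent.Run7.h216.BP

open MvPolynomial Pool.Agent.Run7.h802.HP

theorem form_map {R S : Type} [CommRing R] [CommRing S] (f : R →+* S) {n d : ℕ}
    (a : Mon n d → R) : form (fun m => f (a m)) = map f (form a) := by
  simp [form, map_sum, map_mul, map_prod, map_pow]

theorem form_hom {R : Type} [CommRing R] {n d : ℕ} (a : Mon n d → R) :
    (form a).IsHomogeneous d := by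
  unfold form
  refine IsHomogeneous.sum _ _ _ ?_
  intro m _
  have h1 : (∏ i, (X i : MvPolynomial (Fin (n + 2)) R) ^ ((m.1 i : Fin (d + 1)) : ℕ)).IsHomogeneous
      (∑ i, (m.1 i : ℕ)) := by
    refine IsHomogeneous.prod _ _ _ ?_
    intro i _
    exact isHomogeneous_X_pow i _
  have h2 := (isHomogeneous_C (Fin (n + 2)) (a m)).mul h1
  rw [m.2, zero_add] at h2
  exact h2

theorem eval_scale {R : Type} [CommRing R] {σ : Type} [Fintype σ] {P : MvPolynomial σ R} {d : ℕ}
    (h : P.IsHomogeneous d) (c : R) (x : σ → R) :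
    eval (fun i => c * x i) P = c ^ d * eval x P := by
  rw [eval_eq', eval_eq', Finset.mul_sum]
  refine Finset.sum_congr rfl ?_
  intro m hm
  have h1 : ∑ i, m i = d := by
    have h2 := h (mem_support_iff.1 hm)
    rw [← h2, Finsupp.weight_apply, Finsupp.sum_fintype]
    · simp
    · simp
  rw [← h1, ← Finset.prod_pow_eq_pow_sum]
  simp_rw [mul_pow]
  rw [Finset.prod_mul_distrib]
  ring

theorem eval_cast {R S : Type} [CommRing R] [CommRing S] (f : R →+* S) {σ : Type}
    (P : MvPolynomial σ R) (x : σ → R) :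
    eval (fun i => f (x i)) (map f P) = f (eval x P) := by
  rw [map_eval]
  rfl

/-- Scaling a singular zero. -/
theorem Sing.scale {k : Type} [Field k] {n d : ℕ} {a : Mon n d → k} {x : Fin (n + 2) → k}
    (h : Sing a x) (c : k) : Sing a (fun i => c * x i) := by
  refine ⟨?_, ?_⟩
  · rw [eval_scale (form_hom a), h.1, mul_zero]
  · intro i
    rw [eval_scale ((form_hom a).pderiv), h.2 i, mul_zero]

/-- Every homogeneous polynomial of degree `d` is a form. -/
theorem exists_form {R : Type} [CommRing R] {n d : ℕ} {P : MvPolynomial (Fin (n + 2)) R}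
    (h : P.IsHomogeneous d) : ∃ a : Mon n d → R, form a = P := by
  classical
  refine ⟨fun m => coeff (Finsupp.equivFunOnFinite.symm fun i => ((m.1 i : Fin (d + 1)) : ℕ)) P, ?_⟩
  have key : ∀ m : Mon n d, (C (coeff (Finsupp.equivFunOnFinite.symm
      fun i => ((m.1 i : Fin (d + 1)) : ℕ)) P) *
      ∏ i, (X i : MvPolynomial (Fin (n + 2)) R) ^ ((m.1 i : Fin (d + 1)) : ℕ)) =
      monomial (Finsupp.equivFunOnFinite.symm fun i => ((m.1 i : Fin (d + 1)) : ℕ))
        (coeff (Finsupp.equivFunOnFinite.symm fun i => ((m.1 i : Fin (d + 1)) : ℕ)) P) := by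
    intro m
    rw [monomial_eq, Finsupp.prod_fintype]
    · rfl
    · intro i
      simp
  unfold form
  rw [Finset.sum_congr rfl fun m _ => key m]
  ext s
  rw [coeff_sum]
  simp only [coeff_monomial]
  by_cases hs : coeff s P = 0
  · rw [hs]
    refine Finset.sum_eq_zero ?_
    intro m _
    split_ifs with h1
    · rw [h1]
      exact hs
    · rfl
  · have h1 : ∑ i, s i = d := by
      have h2 := h hs
      rw [← h2, Finsupp.weight_apply, Finsupp.sum_fintype]
      · simp
      · simp
    have h3 : ∀ i, s i < d + 1 := by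
      intro i
      have h4 : s i ≤ ∑ i, s i := Finset.single_le_sum (fun _ _ => Nat.zero_le _) (Finset.mem_univ i)
      omega
    let m₀ : Mon n d := ⟨fun i => ⟨s i, h3 i⟩, h1⟩
    have h5 : (Finsupp.equivFunOnFinite.symm fun i => ((m₀.1 i : Fin (d + 1)) : ℕ)) = s := by
      ext i
      rfl
    rw [Finset.sum_eq_single m₀]
    · rw [if_pos h5, h5]
    · intro m _ hm
      rw [if_neg]
      intro h6
      apply hm
      apply Subtype.ext
      funext i
      apply Fin.ext
      have h7 := DFunLike.congr_fun h6 i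
      exact h7
    · intro h6
      exact absurd (Finset.mem_univ _) h6

end Pool.Agent.Run7.h216.BP
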