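import Pool.Agent.Run7.h216.BP.Form

/-! Project hp (helper802), piece PTS (helper216): outside the exceptional sets the reduction is
good or has a single rational node. -/

set_option autoImplicit false

namespace Pool.Agent.Run7.h216.BP

open MvPolynomial Pool.Agent.Run7.h802.HP

theorem aeval_cast {k : Type} [Field k] {σ : Type} (a : σ → ℤ) (P : MvPolynomial σ ℤ) :
    aeval (fun m => ((a m : ℤ) : k)) P = ((eval a P : ℤ) : k) := by
  have h := eval_cast (Int.castRingHom k) P a
  rw [eval_map] at h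
  rw [aeval_def]
  exact h

theorem hess_cast {k : Type} [Field k] {n d : ℕ} (a : Mon n d → ℤ) (x : Fin (n + 2) → ℤ) :
    hess (fun m => ((a m : ℤ) : k)) (fun i => ((x i : ℤ) : k)) = ((hess a x : ℤ) : k) := by
  have h1 : form (fun m => ((a m : ℤ) : k)) = map (Int.castRingHom k) (form a) :=
    form_map (Int.castRingHom k) a
  unfold hess
  rw [h1]
  have h2 := RingHom.map_det (Int.castRingHom k) (Matrix.of fun i j : Fin (n + 1) =>
    eval x (pderiv i.succ (pderiv j.succ (form a))))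
  refine Eq.trans ?_ h2.symm
  congr 1
  ext i j
  simp only [Matrix.of_apply, RingHom.mapMatrix_apply, Matrix.map_apply]
  rw [pderiv_map, pderiv_map]
  exact eval_cast (Int.castRingHom k) _ x

theorem pd_cast {k : Type} [Field k] {n d : ℕ} (a : Mon n d → ℤ) (x : Fin (n + 2) → ℤ)
    (i : Fin (n + 2)) :
    eval (fun i => ((x i : ℤ) : k)) (pderiv i (form (fun m => ((a m : ℤ) : k)))) =
      ((eval x (pderiv i (form a)) : ℤ) : k) := by
  have h1 : form (fun m => ((a m : ℤ) : k)) = map (Int.castRingHom k) (form a) :=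
    form_map (Int.castRingHom k) a
  rw [h1, pderiv_map]
  exact eval_cast (Int.castRingHom k) _ x

theorem fm_cast {k : Type} [Field k] {n d : ℕ} (a : Mon n d → ℤ) (x : Fin (n + 2) → ℤ) :
    eval (fun i => ((x i : ℤ) : k)) (form (fun m => ((a m : ℤ) : k))) =
      ((eval x (form a) : ℤ) : k) := by
  have h1 : form (fun m => ((a m : ℤ) : k)) = map (Int.castRingHom k) (form a) :=
    form_map (Int.castRingHom k) a
  rw [h1]
  exact eval_cast (Int.castRingHom k) _ x

/-- Congruent points have congruent values. -/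
theorem eval_congr {σ : Type} {p : ℤ} {x y : σ → ℤ} (h : ∀ i, p ∣ x i - y i)
    (P : MvPolynomial σ ℤ) : p ∣ eval x P - eval y P := by
  induction P using MvPolynomial.induction_on with
  | C a => simp
  | add P Q hP hQ =>
    rw [map_add, map_add]
    have := dvd_add hP hQ
    ring_nf at this ⊢
    exact this
  | mul_X P i hP =>
    rw [map_mul, map_mul, eval_X, eval_X]
    have h1 : eval x P * x i - eval y P * y i =
        (eval x P - eval y P) * x i + eval y P * (x i - y i) := by ring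
    rw [h1]
    exact dvd_add (Dvd.dvd.mul_right hP _) (Dvd.dvd.mul_left (h i) _)

/-- Piece PTS. -/
theorem pts (hN : S_NEWTON) : S_PTS := by
  intro n d h g r H1 H2 a ha
  refine ⟨?_, ?_⟩
  · intro k _ _ x hx
    by_contra h0
    have h1 := (H1 k _ x h0 hx).1
    rw [aeval_cast] at h1
    exact ha (by exact_mod_cast h1)
  intro p hp hpg
  by_cases hgood : GoodAt a p
  · exact Or.inl hgood
  refine Or.inr ?_
  have hpZ : Prime (p : ℤ) := Nat.prime_iff_prime_int.1 hp
  unfold GoodAt at hgood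
  push Not at hgood
  obtain ⟨k, fk, ck, x, hx, hx0⟩ := hgood
  have hk : ∀ z : ℤ, (z : k) = 0 ↔ (p : ℤ) ∣ z := fun z => CharP.intCast_eq_zero_iff k p z
  have A1 := H1 k _ x hx0 hx
  rw [aeval_cast, aeval_cast, aeval_cast] at A1
  have hph : (p : ℤ) ∣ eval a h := (hk _).1 A1.1
  have hpg' : ¬ (p : ℤ) ∣ eval a g := fun h1 => hpg ⟨hph, h1⟩
  obtain ⟨B1, B2, B3, -⟩ := A1.2 fun h1 => hpg' ((hk _).1 h1)
  have hr0 : ¬ (p : ℤ) ∣ eval a (r 0) := fun h1 => B1 ((hk _).2 h1)
  -- an inverse of `r₀(a)` modulo `p`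
  obtain ⟨u, hu⟩ : ∃ u : ℤ, (p : ℤ) ∣ u * eval a (r 0) - 1 := by
    have h1 : IsCoprime (p : ℤ) (eval a (r 0)) := (Prime.coprime_iff_not_dvd hpZ).2 hr0
    obtain ⟨s, t, hst⟩ := h1
    refine ⟨t, ?_⟩
    have h2 : t * eval a (r 0) - 1 = (p : ℤ) * (-s) := by linear_combination hst
    rw [h2]
    exact dvd_mul_right _ _
  let x₀ : Fin (n + 2) → ℤ := fun i => if i = 0 then 1 else u * eval a (r i)
  have hx₀0 : x₀ 0 = 1 := by simp [x₀]
  -- singular points of reductions
  have sing : ∀ (κ : Type) [Field κ] [CharP κ p] (y : Fin (n + 2) → κ),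
      Sing (fun m => ((a m : ℤ) : κ)) y → ∀ i, y i = y 0 * ((x₀ i : ℤ) : κ) := by
    intro κ _ _ y hy i
    by_cases hy0 : y = 0
    · rw [hy0]
      simp
    · have C1 := (H1 κ _ y hy0 hy).2
      rw [aeval_cast, aeval_cast] at C1
      have C2 := C1 fun h1 => hpg' ((CharP.intCast_eq_zero_iff κ p _).1 h1)
      by_cases hi : i = 0
      · rw [hi, hx₀0]
        simp
      · have h1 := C2.2.2.1 i
        rw [aeval_cast] at h1
        have h2 : ((u * eval a (r 0) - 1 : ℤ) : κ) = 0 := (CharP.intCast_eq_zero_iff κ p _).2 hu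
        push_cast at h2
        have h3 : x₀ i = u * eval a (r i) := if_neg hi
        rw [h3]
        push_cast
        linear_combination (u : κ) * h1 - y i * h2
  -- the point `x₀` is singular over `k`
  have hsc : Sing (fun m => ((a m : ℤ) : k)) (fun i => ((x₀ i : ℤ) : k)) := by
    have h1 := Sing.scale hx (x 0)⁻¹
    have h2 : (fun i => (x 0)⁻¹ * x i) = fun i => ((x₀ i : ℤ) : k) := by
      funext i
      rw [sing k x hx i, ← mul_assoc, inv_mul_cancel₀ B2, one_mul]
    rw [h2] at h1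
    exact h1
  have hne : (fun i => ((x₀ i : ℤ) : k)) ≠ 0 := by
    intro h1
    have h2 := congrFun h1 0
    simp [hx₀0] at h2
  have hF₀ : (p : ℤ) ∣ eval x₀ (form a) := by
    have h1 := hsc.1
    rw [fm_cast] at h1
    exact (hk _).1 h1
  have hD₀ : ∀ i, (p : ℤ) ∣ eval x₀ (pderiv i (form a)) := by
    intro i
    have h1 := hsc.2 i
    rw [pd_cast] at h1
    exact (hk _).1 h1
  have hH₀ : ¬ (p : ℤ) ∣ hess a x₀ := by
    have C1 := (H1 k _ _ hne hsc).2
    rw [aeval_cast] at C1
    have C2 := (C1 fun h1 => hpg' ((hk _).1 h1)).2.2.2 (by simp [hx₀0])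
    rw [hess_cast] at C2
    exact fun h1 => C2 ((hk _).2 h1)
  -- Newton
  obtain ⟨L, hL1, hL2⟩ : ∃ L : ℕ, (p : ℤ) ^ L ∣ eval a h ∧ ¬ (p : ℤ) ^ (L + 1) ∣ eval a h :=
    (FiniteMultiplicity.of_prime_left hpZ ha).exists_eq_pow_mul_and_not_dvd.elim fun c hc => by
      refine ⟨multiplicity (p : ℤ) (eval a h), ⟨c, hc.1⟩, ?_⟩
      exact (FiniteMultiplicity.of_prime_left hpZ ha).not_pow_dvd_of_multiplicity_lt
        (Nat.lt_succ_self _)
  obtain ⟨y, hy0, hyx, hyD⟩ := hN n d a p hp x₀ hx₀0 (fun i => hD₀ i.succ) hH₀ (L + 1)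
  have hyF : ¬ (p : ℤ) ^ (L + 1) ∣ eval y (form a) := by
    intro h1
    apply hL2
    have h2 := H2 ℤ a y hy0
    have h3 : Ideal.span (insert (eval y (form a))
        (Set.range fun i : Fin (n + 1) => eval y (pderiv i.succ (form a)))) ≤
        Ideal.span {(p : ℤ) ^ (L + 1)} := by
      rw [Ideal.span_le]
      intro z hz
      rw [Set.mem_insert_iff] at hz
      rw [SetLike.mem_coe, Ideal.mem_span_singleton]
      rcases hz with hz | ⟨i, hz⟩
      · rw [hz]
        exact h1
      · rw [← hz]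
        exact hyD i
    have h4 := h3 h2
    rw [Ideal.mem_span_singleton] at h4
    exact h4
  have hyF0 : eval y (form a) ≠ 0 := by
    intro h1
    rw [h1] at hyF
    exact hyF (dvd_zero _)
  obtain ⟨K, hK1, hK2⟩ : ∃ K : ℕ, (p : ℤ) ^ K ∣ eval y (form a) ∧
      ¬ (p : ℤ) ^ (K + 1) ∣ eval y (form a) :=
    (FiniteMultiplicity.of_prime_left hpZ hyF0).exists_eq_pow_mul_and_not_dvd.elim fun c hc => by
      refine ⟨multiplicity (p : ℤ) (eval y (form a)), ⟨c, hc.1⟩, ?_⟩
      exact (FiniteMultiplicity.of_prime_left hpZ hyF0).not_pow_dvd_of_multiplicity_lt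
        (Nat.lt_succ_self _)
  have hKL : K < L + 1 := by
    by_contra h1
    exact hyF (dvd_trans (pow_dvd_pow _ (by omega)) hK1)
  have hK0 : 1 ≤ K := by
    by_contra h1
    have h2 : K = 0 := by omega
    rw [h2, zero_add, pow_one] at hK2
    apply hK2
    have h3 := eval_congr hyx (form a)
    have h4 := dvd_add h3 hF₀
    rw [sub_add_cancel] at h4
    exact h4
  refine ⟨y, K, hK0, hy0, hK1, hK2, ?_, ?_, ?_⟩
  · intro i
    exact dvd_trans (pow_dvd_pow _ (by omega)) (hyD i)
  · intro h1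
    apply hH₀
    have h2 : ((hess a y : ℤ) : k) = 0 := (hk _).2 h1
    have h3 : (fun i => ((y i : ℤ) : k)) = fun i => ((x₀ i : ℤ) : k) := by
      funext i
      have h4 := (hk _).2 (hyx i)
      push_cast at h4
      exact sub_eq_zero.1 h4
    rw [← hess_cast, h3, hess_cast] at h2
    exact (hk _).1 h2
  · intro κ _ _ z hz i
    rw [sing κ z hz i]
    congr 1
    have h4 := (CharP.intCast_eq_zero_iff κ p _).2 (hyx i)
    push_cast at h4
    exact (sub_eq_zero.1 h4).symm

end Pool.Agent.Run7.h216.BP
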