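import Pool.Agent.Run7.h216.BP.Form

/-! Project hp (helper802), piece SMOOTH (helper216): in every characteristic there is a smooth
form with integral coefficients. -/

set_option autoImplicit false

namespace Pool.Agent.Run7.h216.BP

open MvPolynomial Pool.Agent.Run7.h802.HP

/-- The Fermat form. -/
noncomputable def fer (n d : ℕ) : MvPolynomial (Fin (n + 2)) ℤ := ∑ i, X i ^ d

/-- The Klein form. -/
noncomputable def klein (n e : ℕ) : MvPolynomial (Fin (n + 2)) ℤ :=
  X 0 ^ (e + 1) + ∑ i : Fin (n + 1), X i.castSucc * X i.succ ^ e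

theorem fer_hom (n d : ℕ) : (fer n d).IsHomogeneous d :=
  IsHomogeneous.sum _ _ _ fun i _ => isHomogeneous_X_pow i d

theorem klein_hom (n e : ℕ) : (klein n e).IsHomogeneous (e + 1) := by
  refine (isHomogeneous_X_pow _ _).add (IsHomogeneous.sum _ _ _ ?_)
  intro i _
  have h := (isHomogeneous_X ℤ i.castSucc).mul (isHomogeneous_X_pow (R := ℤ) i.succ e)
  rw [Nat.add_comm 1 e] at h
  exact h

theorem smooth_of {n d p : ℕ} (P : MvPolynomial (Fin (n + 2)) ℤ) (hP : P.IsHomogeneous d)
    (h : ∀ (k : Type) [Field k] [CharP k p] (x : Fin (n + 2) → k),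
      eval x (map (Int.castRingHom k) P) = 0 →
      (∀ i, eval x (pderiv i (map (Int.castRingHom k) P)) = 0) → x = 0) :
    ∃ a : Mon n d → ℤ, ∀ (k : Type) [Field k] [CharP k p] (x : Fin (n + 2) → k),
      Sing (fun m => ((a m : ℤ) : k)) x → x = 0 := by
  obtain ⟨a, ha⟩ := exists_form hP
  refine ⟨a, ?_⟩
  intro k _ _ x hx
  have h1 := form_map (Int.castRingHom k) a
  rw [ha] at h1
  have h2 : form (fun m => ((a m : ℤ) : k)) = map (Int.castRingHom k) P := h1
  obtain ⟨h3, h4⟩ := hx
  rw [h2] at h3 h4
  exact h k x h3 h4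

theorem smooth_fer {n d p : ℕ} (hd : 3 ≤ d) (hpd : ¬ p ∣ d) (k : Type) [Field k]
    [CharP k p] (x : Fin (n + 2) → k)
    (h : ∀ i, eval x (pderiv i (map (Int.castRingHom k) (fer n d))) = 0) : x = 0 := by
  classical
  funext i
  have h1 := h i
  have h2 : map (Int.castRingHom k) (fer n d) = ∑ i, X i ^ d := by
    simp [fer, map_sum]
  rw [h2, map_sum, map_sum, Finset.sum_eq_single i] at h1
  · rw [pderiv_pow, pderiv_X_self] at h1
    have h3 : (d : k) ≠ 0 := by
      intro h4
      exact hpd ((CharP.cast_eq_zero_iff k p d).1 h4)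
    simp only [map_mul, map_natCast, map_pow, eval_X, mul_one, mul_eq_zero] at h1
    rcases h1 with h1 | h1
    · exact absurd h1 h3
    · exact pow_eq_zero_iff (by omega) |>.1 h1
  · intro j _ hj
    rw [pderiv_pow, pderiv_X_of_ne hj]
    simp
  · intro h3
    exact absurd (Finset.mem_univ i) h3

theorem smooth_klein {n e p : ℕ} (he : 2 ≤ e) (hpd : p ∣ e + 1) (k : Type)
    [Field k] [CharP k p] (x : Fin (n + 2) → k)
    (h0 : eval x (map (Int.castRingHom k) (klein n e)) = 0)
    (h : ∀ i, eval x (pderiv i (map (Int.castRingHom k) (klein n e))) = 0) : x = 0 := by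
  classical
  have hc : ((e : k) + 1) = 0 := by
    have h1 := (CharP.cast_eq_zero_iff k p (e + 1)).2 hpd
    push_cast at h1
    exact h1
  have h2 : map (Int.castRingHom k) (klein n e) =
      X 0 ^ (e + 1) + ∑ i : Fin (n + 1), X i.castSucc * X i.succ ^ e := by
    simp [klein, map_sum]
  rw [h2] at h0 h
  -- the partial derivatives
  have hD : ∀ j, eval x (pderiv j (X 0 ^ (e + 1) + ∑ i : Fin (n + 1),
      X i.castSucc * X i.succ ^ e : MvPolynomial (Fin (n + 2)) k)) =
      ∑ i : Fin (n + 1), ((if i.castSucc = j then x i.succ ^ e else 0) +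
        (if i.succ = j then x i.castSucc * (e * x i.succ ^ (e - 1)) else 0)) := by
    intro j
    rw [map_add, map_add, map_sum, map_sum]
    have h3 : eval x (pderiv j (X 0 ^ (e + 1) : MvPolynomial (Fin (n + 2)) k)) = 0 := by
      rw [pderiv_pow]
      simp only [map_mul, map_natCast]
      push_cast
      rw [hc]
      simp
    rw [h3, zero_add]
    refine Finset.sum_congr rfl ?_
    intro i _
    rw [pderiv_mul, pderiv_pow, pderiv_X, pderiv_X]
    simp only [Pi.single_apply, map_add, map_mul, map_pow, eval_X, map_natCast]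
    by_cases h4 : i.castSucc = j
    · by_cases h5 : i.succ = j
      · simp [h4, h5]
      · simp [h4, h5]
    · by_cases h5 : i.succ = j
      · simp [h4, h5]
      · simp [h4, h5]
  -- successive vanishing
  have key : ∀ m : ℕ, ∀ hm : m < n + 1, x (Fin.succ ⟨m, hm⟩) = 0 := by
    intro m
    induction m with
    | zero =>
      intro hm
      have h3 := h 0
      rw [hD, Finset.sum_eq_single ⟨0, hm⟩] at h3
      · have h4 : (Fin.castSucc (⟨0, hm⟩ : Fin (n + 1))) = 0 := rfl
        have h5 : (Fin.succ (⟨0, hm⟩ : Fin (n + 1))) ≠ 0 := Fin.succ_ne_zero _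
        rw [if_pos h4, if_neg h5, add_zero] at h3
        exact pow_eq_zero_iff (by omega) |>.1 h3
      · intro i _ hi
        have h4 : i.castSucc ≠ 0 := by
          intro h5
          apply hi
          apply Fin.ext
          have h6 := congrArg Fin.val h5
          simpa using h6
        have h5 : i.succ ≠ 0 := Fin.succ_ne_zero _
        rw [if_neg h4, if_neg h5, add_zero]
      · intro h4
        exact absurd (Finset.mem_univ _) h4
    | succ m ih =>
      intro hm
      have hm' : m < n + 1 := by omega
      have h3 := h (Fin.castSucc ⟨m + 1, hm⟩)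
      have h6 := ih hm'
      rw [hD, Finset.sum_eq_single ⟨m + 1, hm⟩] at h3
      · rw [if_pos rfl, if_neg, add_zero] at h3
        · exact pow_eq_zero_iff (by omega) |>.1 h3
        · intro h5
          have h7 := congrArg Fin.val h5
          simp at h7
      · intro i _ hi
        have h4 : i.castSucc ≠ Fin.castSucc ⟨m + 1, hm⟩ := by
          intro h5
          exact hi (Fin.castSucc_injective _ h5)
        rw [if_neg h4, zero_add]
        by_cases h5 : i.succ = Fin.castSucc ⟨m + 1, hm⟩
        · rw [if_pos h5]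
          have h7 : i = ⟨m, hm'⟩ := by
            apply Fin.ext
            have h8 := congrArg Fin.val h5
            simp at h8
            simpa using h8
          rw [h7, h6, zero_pow (by omega)]
          simp
        · rw [if_neg h5]
      · intro h4
        exact absurd (Finset.mem_univ _) h4
  have key2 : ∀ i : Fin (n + 1), x i.succ = 0 := fun i => key i.1 i.2
  have h3 : x 0 = 0 := by
    rw [map_add, map_sum, Finset.sum_eq_zero] at h0
    · simp only [map_pow, eval_X, add_zero] at h0
      exact pow_eq_zero_iff (by omega) |>.1 h0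
    · intro i _
      simp only [map_mul, map_pow, eval_X, key2 i]
      rw [zero_pow (by omega), mul_zero]
  funext i
  refine Fin.cases h3 ?_ i
  intro j
  exact key2 j

/-- Piece SMOOTH. -/
theorem smooth : S_SMOOTH := by
  intro n d _ hd p _
  by_cases hpd : p ∣ d
  · obtain ⟨e, rfl⟩ : ∃ e, d = e + 1 := ⟨d - 1, by omega⟩
    refine smooth_of (klein n e) (klein_hom n e) ?_
    intro k _ _ x h0 h1
    exact smooth_klein (by omega) hpd k x h0 h1
  · refine smooth_of (fer n d) (fer_hom n d) ?_
    intro k _ _ x _ h1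
    exact smooth_fer hd hpd k x h1

end Pool.Agent.Run7.h216.BP
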